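import Pool.Agent.W973.CES.Defs

set_option autoImplicit false

namespace Pool.Agent.W657.CES

open Pool.Agent.W973.CES Pool.Agent.NPC

lemma side {n : ℕ} {L : List (List ℕ)} {p r : List ℕ} (h : sideB n L p r = true) (i j : ℕ)
    (hi : i < n) (hj : j < n)
    (hb : (L.getD i []).idxOf (p.getD j 0) < (L.getD i []).idxOf (p.getD i 0)) :
    r.getD j 0 < r.getD i 0 := by
  unfold sideB at h
  rw [List.all_eq_true] at h
  have h1 := h i (List.mem_range.2 hi)
  rw [List.all_eq_true] at h1
  have h2 := h1 j (List.mem_range.2 hj)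
  rw [Bool.or_eq_true, decide_eq_true_iff] at h2
  rcases h2 with h2 | h2
  · rw [Bool.not_eq_true', decide_eq_false_iff_not] at h2
    exact absurd hb h2
  · exact h2

lemma perm_of {n : ℕ} {M : List ℕ} (h1 : M.length = n) (h2 : ∀ i < n, i ∈ M) :
    M.Perm (List.range n) := by
  have h3 : (List.range n).Subperm M :=
    List.nodup_range.subperm (fun i hi => h2 i (List.mem_range.1 hi))
  exact (h3.perm_of_length_le (by rw [List.length_range, h1])).symm

theorem ver (h1 : S_VALB) (h2 : S_CYC) : S_VER := by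
  rintro I ⟨M, rm, rw'⟩ h
  unfold verB at h
  simp only [Bool.and_eq_true, decide_eq_true_iff, List.all_eq_true, List.mem_range] at h
  obtain ⟨⟨⟨⟨hv, hl⟩, hm⟩, hs1⟩, hs2⟩ := h
  have hp : M.Perm (List.range I.1.length) := perm_of hl hm
  refine ⟨(h1 I).1 hv, ?_⟩
  refine h2 I M (fun a => if a.1 then rm.getD a.2 0 else rw'.getD a.2 0) hp ?_
  rintro ⟨sa, a⟩ ⟨sb, b⟩ ha hb ⟨he, hbe⟩
  simp only at he ha hb
  subst he
  unfold Before prefs partner at hbe
  cases sa with
  | true =>
    simp only [if_true] at hbe ⊢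
    exact side hs1 a b ha hb hbe
  | false =>
    simp only [Bool.false_eq_true, if_false] at hbe ⊢
    refine side hs2 a b ha hb ?_
    have e : ∀ j, j < I.1.length →
        ((List.range I.1.length).map fun j => M.idxOf j).getD j 0 = M.idxOf j := by
      intro j hj
      rw [List.getD_eq_getElem _ _ (by simpa using hj)]
      simp
    rw [e a ha, e b hb]
    exact hbe

end Pool.Agent.W657.CES
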